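import Pool.Agent.H89.SplineFun

set_option autoImplicit false

/-!
# Regularity of planar spline modules

One fixed planar triangulation `Δ` of a disk with ten triangles such that, for every `r ≥ 2`, the
spline module `C^r` of the cone over `Δ` has Castelnuovo-Mumford regularity at least
`⌊5r/2⌋ + 2`, which is larger than `2(r+1)`.
-/

namespace Pool.Agent.Results.MP_75549a_ag.DiskRegularity

open MvPolynomial Pool.Agent.H89.Spline

/-- The polynomial ring `S = ℝ[x,y,z]`, with `x = X 0`, `y = X 1`, `z = X 2`. -/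
abbrev S := MvPolynomial (Fin 3) ℝ

/-- A finite, pure, two-dimensional simplicial complex in the plane, given by its vertices, their
positions, and its triangles: the triangles are nondegenerate, every vertex lies in a triangle,
and any two triangles meet exactly in the convex hull of their common vertices. -/
structure PlanarComplex where
  /-- the vertices -/
  V : Type
  /-- the triangles -/
  T : Type
  [fintypeV : Fintype V]
  [decV : DecidableEq V]
  [fintypeT : Fintype T]
  /-- the position of a vertex in the plane -/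
  pos : V → ℝ × ℝ
  /-- the three vertices of a triangle -/
  tri : T → Finset V
  pos_injective : Function.Injective pos
  tri_injective : Function.Injective tri
  card_tri : ∀ t, (tri t).card = 3
  exists_tri : ∀ v, ∃ t, v ∈ tri t
  affineIndependent : ∀ t, AffineIndependent ℝ (fun v : tri t => pos v)
  inter_subset : ∀ s t, convexHull ℝ (pos '' (tri s : Set V)) ∩ convexHull ℝ (pos '' (tri t : Set V))
    ⊆ convexHull ℝ (pos '' ((tri s ∩ tri t : Finset V) : Set V))

attribute [instance] PlanarComplex.fintypeV PlanarComplex.decV PlanarComplex.fintypeT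

namespace PlanarComplex

variable (K : PlanarComplex)

/-- The support `|Δ|` in the plane: the union of the triangles. -/
def space : Set (ℝ × ℝ) := ⋃ t : K.T, convexHull ℝ (K.pos '' (K.tri t : Set K.V))

/-- The triangles `s` and `t` contain the face `γ` and share an edge. -/
def Adj (γ : Finset K.V) (s t : K.T) : Prop :=
  γ ⊆ K.tri s ∧ γ ⊆ K.tri t ∧ (K.tri s ∩ K.tri t).card = 2

/-- Hereditary: for every face `γ` (the empty face included), any two triangles containing `γ`
are connected by a chain of triangles containing `γ`, consecutive ones sharing an edge (which then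
contains `γ`). -/
def Hereditary : Prop :=
  ∀ (γ : Finset K.V) (s t : K.T), γ ⊆ K.tri s → γ ⊆ K.tri t → Relation.ReflTransGen (K.Adj γ) s t

end PlanarComplex

/-- The linear form vanishing on the cone over the edge with endpoints `p`, `q` in the plane
`z = 1`: the determinant of `(x,y,z)`, `(p,1)`, `(q,1)`. -/
noncomputable def edgeForm (p q : ℝ × ℝ) : S :=
  C (p.2 - q.2) * X 0 + C (q.1 - p.1) * X 1 + C (p.1 * q.2 - p.2 * q.1) * X 2

/-- The spline module `C^r` of the cone over `Δ`, as a submodule of `S^T` (`T` = triangles): the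
piecewise polynomial functions `(F_σ)` which are `r` times continuously differentiable across every
interior edge, that is, `ℓ_τ^(r+1)` divides `F_σ - F_σ'` whenever the triangles `σ`, `σ'` share
the edge `τ = {a, b}`, where `ℓ_τ` is the linear form of the cone over `τ` (Billera-Rose). -/
def splines (K : PlanarComplex) (r : ℕ) : Submodule S (K.T → S) where
  carrier := {F | ∀ (s t : K.T) (a b : K.V), a ≠ b → K.tri s ∩ K.tri t = {a, b} →
    edgeForm (K.pos a) (K.pos b) ^ (r + 1) ∣ F s - F t}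
  add_mem' := by
    intro F G hF hG s t a b hab h
    have := dvd_add (hF s t a b hab h) (hG s t a b hab h)
    convert this using 1
    simp only [Pi.add_apply]; ring
  zero_mem' := by
    intro s t a b _ _
    simp
  smul_mem' := by
    intro c F hF s t a b hab h
    have := Dvd.dvd.mul_left (hF s t a b hab h) c
    convert this using 1
    simp only [Pi.smul_apply, smul_eq_mul]; ring

/-- A graded free resolution (by finitely generated graded free modules)
`⋯ → F_1 → F_0 → M → 0` of a graded submodule `M` of `S^T`.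
`F_i` has a basis indexed by `idx i`, the basis vector `j` being of degree `deg i j`;
`gen` gives the images of the basis of `F_0`, `dif i` the matrix of `F_{i+1} → F_i`. All maps are
homogeneous of degree `0`, and the sequence is exact. It need not be minimal. -/
structure GradedFreeResolution {T : Type} [Fintype T] (M : Submodule S (T → S)) where
  /-- basis of `F_i` -/
  idx : ℕ → Type
  [fintypeIdx : ∀ i, Fintype (idx i)]
  /-- degrees of the basis elements of `F_i` -/
  deg : ∀ i, idx i → ℕ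
  /-- images in `M` of the basis of `F_0` -/
  gen : idx 0 → T → S
  gen_homogeneous : ∀ j t, (gen j t).IsHomogeneous (deg 0 j)
  span_gen : Submodule.span S (Set.range gen) = M
  /-- matrix of the differential `F_{i+1} → F_i` -/
  dif : ∀ i, idx (i + 1) → idx i → S
  dif_homogeneous : ∀ i j k, ∀ m ∈ (dif i j k).support, m.degree + deg i k = deg (i + 1) j
  exact_zero : ∀ w : idx 0 → S,
    ∑ k, w k • gen k = 0 ↔ w ∈ Submodule.span S (Set.range (dif 0))
  exact_succ : ∀ i, ∀ w : idx (i + 1) → S,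
    ∑ k, w k • dif i k = 0 ↔ w ∈ Submodule.span S (Set.range (dif (i + 1)))

attribute [instance] GradedFreeResolution.fintypeIdx

/-! ### The example -/

/-- integer coordinates of the nine vertices -/
def posZ : Fin 9 → ℤ × ℤ :=
  ![(0, 0), (-2, 8), (0, 4), (2, 0), (4, -4), (6, -8), (0, 5), (1, 0), (5, -5)]

/-- the ten triangles -/
def triF : Fin 10 → Finset (Fin 9) :=
  ![{0, 1, 2}, {1, 2, 6}, {6, 2, 3}, {2, 3, 7}, {7, 3, 4}, {3, 4, 8}, {8, 4, 5}, {5, 4, 0},
    {0, 4, 7}, {0, 7, 2}]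

/-- separating affine forms -/
def sepF : Fin 10 → Fin 10 → ℤ × ℤ × ℤ :=
  ![![(0, 0, 0), (2, 1, -4), (3, 1, -4), (4, 1, -4), (1, 0, -1), (1, 0, -1), (0, -1, -1), (0, -1, 0), (0, -1, 0), (1, 0, 0)],
    ![(-2, -1, 4), (0, 0, 0), (1, 0, 0), (0, -1, 4), (0, -1, 0), (0, -1, 0), (0, -1, 0), (0, -1, 0), (0, -1, 0), (0, -1, 4)],
    ![(-3, -1, 4), (-1, 0, 0), (0, 0, 0), (-2, -1, 4), (0, -1, 0), (0, -1, 0), (-1, -1, 0), (-1, -1, 0), (-1, -1, 1), (-3, -1, 4)],
    ![(-1, 0, 0), (-1, 0, 0), (2, 1, -4), (0, 0, 0), (0, -1, 0), (1, 0, -2), (-1, -1, 0), (-1, -1, 0), (-1, -1, 1), (-4, -1, 4)],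
    ![(-1, 0, 0), (-1, 0, 0), (1, 1, -2), (0, 1, 0), (0, 0, 0), (2, 1, -4), (-1, -1, 0), (-1, -1, 0), (-4, -3, 4), (-1, 0, 1)],
    ![(-1, 0, 0), (-1, 0, 0), (0, 1, 0), (0, 1, 0), (-2, -1, 4), (0, 0, 0), (-1, -1, 0), (-3, -2, 4), (-3, -2, 4), (-1, 0, 1)],
    ![(-1, 0, 0), (-1, 0, 0), (0, 1, 0), (0, 1, 0), (-1, 0, 4), (1, 1, 0), (0, 0, 0), (-2, -1, 4), (-1, 0, 4), (0, 1, 0)],
    ![(-1, 0, 0), (0, 1, -1), (1, 1, -1), (1, 1, -1), (4, 3, -4), (3, 2, -4), (2, 1, -4), (0, 0, 0), (1, 1, 0), (0, 1, 0)],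
    ![(-1, 0, 0), (0, 1, -1), (1, 1, -2), (1, 1, -1), (4, 3, -4), (2, 1, -4), (0, -1, -4), (-1, -1, 0), (0, 0, 0), (0, 1, 0)],
    ![(-1, 0, 0), (0, 1, -4), (2, 1, -4), (4, 1, -4), (1, 0, -1), (1, 0, -2), (0, -1, -1), (-1, -1, 0), (0, -1, 0), (0, 0, 0)]]

/-- value of an affine form at a vertex -/
def valZ (f : ℤ × ℤ × ℤ) (v : Fin 9) : ℤ := f.1 * (posZ v).1 + f.2.1 * (posZ v).2 + f.2.2

theorem sep_check : ∀ s t : Fin 10, s ≠ t → (∀ v ∈ triF s, valZ (sepF s t) v ≤ 0) ∧
    (∀ v ∈ triF t, 0 ≤ valZ (sepF s t) v) ∧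
    (∀ v ∈ triF s, valZ (sepF s t) v = 0 → v ∈ triF t) := by
  decide +kernel

/-- positions -/
noncomputable def posR (v : Fin 9) : ℝ × ℝ := (((posZ v).1 : ℝ), ((posZ v).2 : ℝ))

theorem posR_injective : Function.Injective posR := by
  have h : Function.Injective posZ := by decide +kernel
  intro a b hab
  apply h
  have h1 := congrArg Prod.fst hab
  have h2 := congrArg Prod.snd hab
  simp only [posR] at h1 h2
  exact Prod.ext (by exact_mod_cast h1) (by exact_mod_cast h2)

theorem mem_hull {A : Finset (Fin 9)} {x : ℝ × ℝ} :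
    x ∈ convexHull ℝ (posR '' (A : Set (Fin 9))) ↔
      ∃ w : Fin 9 → ℝ, (∀ v ∈ A, 0 ≤ w v) ∧ ∑ v ∈ A, w v = 1 ∧ ∑ v ∈ A, w v • posR v = x := by
  classical
  rw [← Finset.coe_image, Finset.mem_convexHull']
  constructor
  · rintro ⟨w, h1, h2, h3⟩
    refine ⟨fun v => w (posR v), fun v hv => h1 _ (Finset.mem_image_of_mem _ hv), ?_, ?_⟩
    · rwa [Finset.sum_image (fun a _ b _ h => posR_injective h)] at h2
    · rwa [Finset.sum_image (fun a _ b _ h => posR_injective h)] at h3
  · rintro ⟨w, h1, h2, h3⟩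
    have hinv : ∀ v, Function.invFun posR (posR v) = v := Function.leftInverse_invFun posR_injective
    refine ⟨fun y => w (Function.invFun posR y), ?_, ?_, ?_⟩
    · intro y hy
      obtain ⟨v, hv, rfl⟩ := Finset.mem_image.1 hy
      simp only [hinv]; exact h1 v hv
    · rw [Finset.sum_image (fun a _ b _ h => posR_injective h)]
      simp_rw [hinv]; exact h2
    · rw [Finset.sum_image (fun a _ b _ h => posR_injective h)]
      simp_rw [hinv]; exact h3

/-- real affine form -/
noncomputable def fR (f : ℤ × ℤ × ℤ) (x : ℝ × ℝ) : ℝ := f.1 * x.1 + f.2.1 * x.2 + f.2.2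

theorem fR_posR (f : ℤ × ℤ × ℤ) (v : Fin 9) : fR f (posR v) = valZ f v := by
  simp [fR, posR, valZ]

theorem fR_sum (f : ℤ × ℤ × ℤ) {A : Finset (Fin 9)} {w : Fin 9 → ℝ} (hw : ∑ v ∈ A, w v = 1) :
    fR f (∑ v ∈ A, w v • posR v) = ∑ v ∈ A, w v * valZ f v := by
  have h1 : (∑ v ∈ A, w v • posR v).1 = ∑ v ∈ A, w v * (posR v).1 := by
    rw [Prod.fst_sum]; rfl
  have h2 : (∑ v ∈ A, w v • posR v).2 = ∑ v ∈ A, w v * (posR v).2 := by
    rw [Prod.snd_sum]; rfl
  have h3 : ∀ v, (valZ f v : ℝ) = f.1 * (posR v).1 + f.2.1 * (posR v).2 + f.2.2 := by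
    intro v
    rw [← fR_posR]; rfl
  have h4 : ∑ v ∈ A, w v * (valZ f v : ℝ) = f.1 * ∑ v ∈ A, w v * (posR v).1 +
      f.2.1 * ∑ v ∈ A, w v * (posR v).2 + f.2.2 * ∑ v ∈ A, w v := by
    rw [Finset.mul_sum, Finset.mul_sum, Finset.mul_sum, ← Finset.sum_add_distrib,
      ← Finset.sum_add_distrib]
    refine Finset.sum_congr rfl (fun v _ => ?_)
    rw [h3]; ring
  rw [h4, fR, h1, h2, hw, mul_one]

theorem inter_of_sep {A B : Finset (Fin 9)} (f : ℤ × ℤ × ℤ) (hA : ∀ v ∈ A, valZ f v ≤ 0)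
    (hB : ∀ v ∈ B, 0 ≤ valZ f v) (hAB : ∀ v ∈ A, valZ f v = 0 → v ∈ B) :
    convexHull ℝ (posR '' (A : Set (Fin 9))) ∩ convexHull ℝ (posR '' (B : Set (Fin 9))) ⊆
      convexHull ℝ (posR '' ((A ∩ B : Finset (Fin 9)) : Set (Fin 9))) := by
  rintro x ⟨hxA, hxB⟩
  obtain ⟨w, hw0, hw1, hwx⟩ := mem_hull.1 hxA
  obtain ⟨w', hw0', hw1', hwx'⟩ := mem_hull.1 hxB
  have h1 : 0 ≤ fR f x := by
    rw [← hwx', fR_sum f hw1']
    exact Finset.sum_nonneg (fun v hv => mul_nonneg (hw0' v hv) (by exact_mod_cast hB v hv))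
  have h2 : fR f x = ∑ v ∈ A, w v * valZ f v := by rw [← hwx, fR_sum f hw1]
  have h3 : ∀ v ∈ A, w v * valZ f v ≤ 0 := fun v hv =>
    mul_nonpos_of_nonneg_of_nonpos (hw0 v hv) (by exact_mod_cast hA v hv)
  have h4 : ∑ v ∈ A, w v * (valZ f v : ℝ) = 0 :=
    le_antisymm (Finset.sum_nonpos h3) (by rw [← h2]; exact h1)
  have h5 : ∀ v ∈ A, w v * (valZ f v : ℝ) = 0 := (Finset.sum_eq_zero_iff_of_nonpos h3).1 h4
  have h6 : ∀ v ∈ A, v ∉ A ∩ B → w v = 0 := by
    intro v hv hvB
    rcases mul_eq_zero.1 (h5 v hv) with h | h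
    · exact h
    · exact absurd (Finset.mem_inter.2 ⟨hv, hAB v hv (by exact_mod_cast h)⟩) hvB
  rw [mem_hull]
  refine ⟨w, fun v hv => hw0 v (Finset.mem_inter.1 hv).1, ?_, ?_⟩
  · rw [← hw1]
    exact Finset.sum_subset Finset.inter_subset_left h6
  · rw [← hwx]
    exact Finset.sum_subset Finset.inter_subset_left (fun v hv hv2 => by rw [h6 v hv hv2, zero_smul])

/-- twice the signed area is nonzero for each triangle -/
theorem area_check : ∀ t : Fin 10, ∀ a ∈ triF t, ∀ b ∈ triF t, ∀ c ∈ triF t, a ≠ b → a ≠ c → b ≠ c →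
    ((posZ b).1 - (posZ a).1) * ((posZ c).2 - (posZ a).2) -
      ((posZ b).2 - (posZ a).2) * ((posZ c).1 - (posZ a).1) ≠ 0 := by
  decide +kernel

theorem card_check : ∀ t : Fin 10, (triF t).card = 3 := by decide +kernel

theorem affInd (t : Fin 10) : AffineIndependent ℝ (fun v : triF t => posR v) := by
  classical
  rw [affineIndependent_iff]
  intro s w hw0 hw1
  -- extend by zero
  let W : Fin 9 → ℝ := fun v => if h : v ∈ triF t then (if (⟨v, h⟩ : triF t) ∈ s then w ⟨v, h⟩ else 0)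
    else 0
  have hW : ∀ v : triF t, W v = if v ∈ s then w v else 0 := by
    intro v
    simp only [W, v.2, dif_pos]
  have hs1 : ∑ v ∈ triF t, W v = 0 := by
    rw [← Finset.sum_coe_sort, ← hw0, ← Finset.sum_filter_add_sum_filter_not Finset.univ (· ∈ s)]
    have h1 : ∑ v ∈ (Finset.univ : Finset (triF t)).filter (· ∈ s), W v = ∑ v ∈ s, w v := by
      rw [Finset.filter_mem_eq_inter, Finset.univ_inter]
      exact Finset.sum_congr rfl (fun v hv => by rw [hW, if_pos hv])
    have h2 : ∑ v ∈ (Finset.univ : Finset (triF t)).filter (fun v => ¬ v ∈ s), W v = 0 := by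
      apply Finset.sum_eq_zero
      intro v hv
      rw [hW, if_neg (Finset.mem_filter.1 hv).2]
    rw [h1, h2, add_zero]
  have hs2 : ∑ v ∈ triF t, W v • posR v = 0 := by
    rw [← Finset.sum_coe_sort (triF t) (fun v => W v • posR v), ← hw1,
      ← Finset.sum_filter_add_sum_filter_not Finset.univ (· ∈ s)]
    have h1 : ∑ v ∈ (Finset.univ : Finset (triF t)).filter (· ∈ s), W v • posR v =
        ∑ v ∈ s, w v • posR v := by
      rw [Finset.filter_mem_eq_inter, Finset.univ_inter]
      exact Finset.sum_congr rfl (fun v hv => by rw [hW, if_pos hv])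
    have h2 : ∑ v ∈ (Finset.univ : Finset (triF t)).filter (fun v => ¬ v ∈ s), W v • posR v = 0 := by
      apply Finset.sum_eq_zero
      intro v hv
      rw [hW, if_neg (Finset.mem_filter.1 hv).2, zero_smul]
    rw [h1, h2, add_zero]
  obtain ⟨a, b, c, hab, hac, hbc, habc⟩ := Finset.card_eq_three.1 (card_check t)
  have harea := area_check t a (by rw [habc]; simp) b (by rw [habc]; simp) c (by rw [habc]; simp)
    hab hac hbc
  rw [habc, Finset.sum_insert (by simp [hab, hac]), Finset.sum_pair hbc] at hs1 hs2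
  have hx := congrArg Prod.fst hs2
  have hy := congrArg Prod.snd hs2
  simp only [posR, Prod.smul_mk, Prod.mk_add_mk, Prod.fst_zero, Prod.snd_zero, smul_eq_mul] at hx hy
  have hareaR : (((posZ b).1 - (posZ a).1) * ((posZ c).2 - (posZ a).2) -
      ((posZ b).2 - (posZ a).2) * ((posZ c).1 - (posZ a).1) : ℝ) ≠ 0 := by
    exact_mod_cast harea
  have hb0 : W b = 0 := by
    have : W b * (((posZ b).1 - (posZ a).1) * ((posZ c).2 - (posZ a).2) -
      ((posZ b).2 - (posZ a).2) * ((posZ c).1 - (posZ a).1) : ℝ) = 0 := by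
      linear_combination ((posZ c).2 - (posZ a).2 : ℝ) * hx - ((posZ c).1 - (posZ a).1 : ℝ) * hy -
        ((posZ a).1 * ((posZ c).2 - (posZ a).2) - (posZ a).2 * ((posZ c).1 - (posZ a).1) : ℝ) * hs1
    exact (mul_eq_zero.1 this).resolve_right hareaR
  have hc0 : W c = 0 := by
    have : W c * (((posZ b).1 - (posZ a).1) * ((posZ c).2 - (posZ a).2) -
      ((posZ b).2 - (posZ a).2) * ((posZ c).1 - (posZ a).1) : ℝ) = 0 := by
      linear_combination ((posZ b).1 - (posZ a).1 : ℝ) * hy - ((posZ b).2 - (posZ a).2 : ℝ) * hx -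
        ((posZ a).2 * ((posZ b).1 - (posZ a).1) - (posZ a).1 * ((posZ b).2 - (posZ a).2) : ℝ) * hs1
    exact (mul_eq_zero.1 this).resolve_right hareaR
  have ha0 : W a = 0 := by rw [hb0, hc0] at hs1; linarith
  intro v hv
  have h1 : W v = w v := by rw [hW, if_pos hv]
  rw [← h1]
  have h2 : (v : Fin 9) ∈ ({a, b, c} : Finset (Fin 9)) := by rw [← habc]; exact v.2
  simp only [Finset.mem_insert, Finset.mem_singleton] at h2
  rcases h2 with h2 | h2 | h2 <;> rw [h2] <;> assumption

/-- The example. -/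
noncomputable def K0 : PlanarComplex where
  V := Fin 9
  T := Fin 10
  pos := posR
  tri := triF
  pos_injective := posR_injective
  tri_injective := by decide +kernel
  card_tri := card_check
  exists_tri := by decide +kernel
  affineIndependent := affInd
  inter_subset := by
    intro s t
    by_cases hst : s = t
    · subst hst
      rw [Finset.inter_self, Set.inter_self]
    · obtain ⟨h1, h2, h3⟩ := sep_check s t hst
      exact inter_of_sep _ h1 h2 h3

def nxtF : Fin 10 → Fin 10 → Fin 10 :=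
  ![![0, 1, 1, 9, 9, 9, 9, 9, 9, 9], ![0, 0, 2, 2, 2, 2, 2, 0, 0, 0],
    ![1, 1, 0, 3, 3, 3, 3, 3, 3, 3], ![9, 2, 2, 0, 4, 4, 4, 4, 4, 9],
    ![3, 3, 3, 3, 0, 5, 5, 8, 8, 3], ![4, 4, 4, 4, 4, 0, 6, 6, 4, 4],
    ![7, 7, 5, 5, 5, 5, 0, 7, 7, 7], ![8, 8, 8, 8, 8, 6, 6, 0, 8, 8],
    ![9, 9, 4, 4, 4, 4, 7, 7, 0, 9], ![0, 0, 3, 3, 3, 3, 8, 8, 8, 0]]

def distF : Fin 10 → Fin 10 → ℕ :=
  ![![0, 1, 2, 2, 3, 4, 4, 3, 2, 1], ![1, 0, 1, 2, 3, 4, 5, 4, 3, 2],
    ![2, 1, 0, 1, 2, 3, 4, 4, 3, 2], ![2, 2, 1, 0, 1, 2, 3, 3, 2, 1],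
    ![3, 3, 2, 1, 0, 1, 2, 2, 1, 2], ![4, 4, 3, 2, 1, 0, 1, 2, 2, 3],
    ![4, 5, 4, 3, 2, 1, 0, 1, 2, 3], ![3, 4, 4, 3, 2, 2, 1, 0, 1, 2],
    ![2, 3, 3, 2, 1, 2, 2, 1, 0, 1], ![1, 2, 2, 1, 2, 3, 3, 2, 1, 0]]

theorem nxt_check : ∀ s t : Fin 10, s ≠ t → triF s ∩ triF t ⊆ triF (nxtF s t) ∧
    (triF s ∩ triF (nxtF s t)).card = 2 ∧ distF (nxtF s t) t < distF s t := by
  decide +kernel

theorem hereditary : K0.Hereditary := by
  intro γ s t hs ht
  change Fin 10 at s t
  change γ ⊆ triF s at hs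
  change γ ⊆ triF t at ht
  obtain ⟨n, hn⟩ : ∃ n, distF s t ≤ n := ⟨_, le_rfl⟩
  induction n generalizing s with
  | zero =>
    by_cases hst : s = t
    · subst hst; exact Relation.ReflTransGen.refl
    · have := (nxt_check s t hst).2.2
      omega
  | succ n ih =>
    by_cases hst : s = t
    · subst hst; exact Relation.ReflTransGen.refl
    · obtain ⟨h1, h2, h3⟩ := nxt_check s t hst
      have h4 : γ ⊆ triF (nxtF s t) := fun v hv => h1 (Finset.mem_inter.2 ⟨hs hv, ht hv⟩)
      have h5 : K0.Adj γ s (nxtF s t) := ⟨hs, h4, h2⟩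
      exact Relation.ReflTransGen.head h5 (ih (nxtF s t) h4 (by omega))

/-! ### The support is star-shaped -/

theorem tri_mem {a b c : Fin 9} (hab : a ≠ b) (hac : a ≠ c) (hbc : b ≠ c) {x : ℝ × ℝ}
    {α β γ : ℝ} (hα : 0 ≤ α) (hβ : 0 ≤ β) (hγ : 0 ≤ γ) (h1 : α + β + γ = 1)
    (hx : α • posR a + β • posR b + γ • posR c = x) :
    x ∈ convexHull ℝ (posR '' (({a, b, c} : Finset (Fin 9)) : Set (Fin 9))) := by
  rw [mem_hull]
  have e1 : ∀ f : Fin 9 → ℝ × ℝ, ∑ v ∈ ({a, b, c} : Finset (Fin 9)), f v = f a + f b + f c := by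
    intro f
    rw [Finset.sum_insert (by simp [hab, hac]), Finset.sum_pair hbc, add_assoc]
  have e2 : ∀ f : Fin 9 → ℝ, ∑ v ∈ ({a, b, c} : Finset (Fin 9)), f v = f a + f b + f c := by
    intro f
    rw [Finset.sum_insert (by simp [hab, hac]), Finset.sum_pair hbc, add_assoc]
  refine ⟨fun v => if v = a then α else if v = b then β else γ, ?_, ?_, ?_⟩
  · intro v _
    dsimp only
    split_ifs <;> assumption
  · rw [e2]
    simp only [if_true, hab.symm, hac.symm, hbc.symm, if_false]
    exact h1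
  · rw [e1]
    simp only [if_true, hab.symm, hac.symm, hbc.symm, if_false]
    exact hx

theorem tri_exists {a b c : Fin 9} (hab : a ≠ b) (hac : a ≠ c) (hbc : b ≠ c) {x : ℝ × ℝ}
    (hx : x ∈ convexHull ℝ (posR '' (({a, b, c} : Finset (Fin 9)) : Set (Fin 9)))) :
    ∃ α β γ : ℝ, 0 ≤ α ∧ 0 ≤ β ∧ 0 ≤ γ ∧ α + β + γ = 1 ∧
      α • posR a + β • posR b + γ • posR c = x := by
  rw [mem_hull] at hx
  obtain ⟨w, h0, h1, h2⟩ := hx
  refine ⟨w a, w b, w c, h0 a (by simp), h0 b (by simp), h0 c (by simp), ?_, ?_⟩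
  · rw [← h1, Finset.sum_insert (by simp [hab, hac]), Finset.sum_pair hbc, add_assoc]
  · rw [← h2, Finset.sum_insert (by simp [hab, hac]), Finset.sum_pair hbc, add_assoc]

/-- the four triangles of the fan with apex `P` -/
def fanF : Fin 4 → Finset (Fin 9) := ![{0, 1, 6}, {0, 6, 3}, {0, 3, 8}, {0, 8, 5}]

def fanOf : Fin 10 → Fin 4 := ![0, 0, 1, 1, 2, 2, 3, 3, 2, 1]

abbrev hull (A : Finset (Fin 9)) : Set (ℝ × ℝ) := convexHull ℝ (posR '' (A : Set (Fin 9)))

theorem vertex_mem {A : Finset (Fin 9)} {v : Fin 9} (hv : v ∈ A) : posR v ∈ hull A :=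
  subset_convexHull ℝ _ ⟨v, hv, rfl⟩

theorem p2_0 : posR 2 ∈ hull (fanF 0) :=
  tri_mem (a := 0) (b := 1) (c := 6) (α := 1 / 5) (β := 0) (γ := 4 / 5) (by decide) (by decide)
    (by decide) (by norm_num) (by norm_num) (by norm_num) (by norm_num)
    (by simp [posR, posZ])
theorem p2_1 : posR 2 ∈ hull (fanF 1) :=
  tri_mem (a := 0) (b := 6) (c := 3) (α := 1 / 5) (β := 4 / 5) (γ := 0) (by decide) (by decide)
    (by decide) (by norm_num) (by norm_num) (by norm_num) (by norm_num)
    (by simp [posR, posZ])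
theorem p7_1 : posR 7 ∈ hull (fanF 1) :=
  tri_mem (a := 0) (b := 6) (c := 3) (α := 1 / 2) (β := 0) (γ := 1 / 2) (by decide) (by decide)
    (by decide) (by norm_num) (by norm_num) (by norm_num) (by norm_num)
    (by simp [posR, posZ])
theorem p7_2 : posR 7 ∈ hull (fanF 2) :=
  tri_mem (a := 0) (b := 3) (c := 8) (α := 1 / 2) (β := 1 / 2) (γ := 0) (by decide) (by decide)
    (by decide) (by norm_num) (by norm_num) (by norm_num) (by norm_num)
    (by simp [posR, posZ])
theorem p4_2 : posR 4 ∈ hull (fanF 2) :=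
  tri_mem (a := 0) (b := 3) (c := 8) (α := 1 / 5) (β := 0) (γ := 4 / 5) (by decide) (by decide)
    (by decide) (by norm_num) (by norm_num) (by norm_num) (by norm_num)
    (by simp [posR, posZ])
theorem p4_3 : posR 4 ∈ hull (fanF 3) :=
  tri_mem (a := 0) (b := 8) (c := 5) (α := 1 / 5) (β := 4 / 5) (γ := 0) (by decide) (by decide)
    (by decide) (by norm_num) (by norm_num) (by norm_num) (by norm_num)
    (by simp [posR, posZ])

theorem fan_check : ∀ t : Fin 10, ∀ v ∈ triF t, v ∈ fanF (fanOf t) ∨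
    (v = 2 ∧ (fanOf t = 0 ∨ fanOf t = 1)) ∨ (v = 7 ∧ (fanOf t = 1 ∨ fanOf t = 2)) ∨
    (v = 4 ∧ (fanOf t = 2 ∨ fanOf t = 3)) := by
  decide +kernel

theorem hull_subset_fan (t : Fin 10) : hull (triF t) ⊆ hull (fanF (fanOf t)) := by
  apply convexHull_min _ (convex_convexHull ℝ _)
  rintro _ ⟨v, hv, rfl⟩
  rcases fan_check t v hv with h | ⟨rfl, h | h⟩ | ⟨rfl, h | h⟩ | ⟨rfl, h | h⟩
  · exact vertex_mem h
  · rw [h]; exact p2_0
  · rw [h]; exact p2_1
  · rw [h]; exact p7_1
  · rw [h]; exact p7_2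
  · rw [h]; exact p4_2
  · rw [h]; exact p4_3

theorem pos_rel_2 : posR 2 = (1 / 5 : ℝ) • posR 0 + (4 / 5 : ℝ) • posR 6 := by
  simp [posR, posZ]
theorem pos_rel_4 : posR 4 = (1 / 5 : ℝ) • posR 0 + (4 / 5 : ℝ) • posR 8 := by
  simp [posR, posZ]
theorem pos_rel_7 : posR 7 = (1 / 2 : ℝ) • posR 0 + (1 / 2 : ℝ) • posR 3 := by
  simp [posR, posZ]

theorem fan_subset (i : Fin 4) : hull (fanF i) ⊆ ⋃ t : Fin 10, hull (triF t) := by
  intro x hx
  rw [Set.mem_iUnion]
  fin_cases i
  · obtain ⟨α, β, γ, hα, hβ, hγ, h1, h2⟩ := tri_exists (by decide) (by decide) (by decide) hx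
    by_cases hc : γ / 4 ≤ α
    · refine ⟨0, tri_mem (a := 0) (b := 1) (c := 2) (by decide) (by decide) (by decide)
        (α := α - γ / 4) (β := β) (γ := 5 * γ / 4) (by linarith) hβ (by linarith) (by linarith) ?_⟩
      rw [← h2, pos_rel_2]; module
    · refine ⟨1, tri_mem (a := 1) (b := 2) (c := 6) (by decide) (by decide) (by decide)
        (α := β) (β := 5 * α) (γ := γ - 4 * α) hβ (by linarith) (by linarith) (by linarith) ?_⟩
      rw [← h2, pos_rel_2]; module
  · obtain ⟨α, β, γ, hα, hβ, hγ, h1, h2⟩ := tri_exists (by decide) (by decide) (by decide) hx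
    by_cases hc : β / 4 ≤ α
    · by_cases hc2 : γ ≤ α - β / 4
      · refine ⟨9, tri_mem (a := 0) (b := 7) (c := 2) (by decide) (by decide) (by decide)
          (α := α - β / 4 - γ) (β := 2 * γ) (γ := 5 * β / 4) (by linarith) (by linarith)
          (by linarith) (by linarith) ?_⟩
        rw [← h2, pos_rel_2, pos_rel_7]; module
      · refine ⟨3, tri_mem (a := 2) (b := 3) (c := 7) (by decide) (by decide) (by decide)
          (α := 5 * β / 4) (β := γ - (α - β / 4)) (γ := 2 * (α - β / 4)) (by linarith)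
          (by linarith) (by linarith) (by linarith) ?_⟩
        rw [← h2, pos_rel_2, pos_rel_7]; module
    · refine ⟨2, tri_mem (a := 6) (b := 2) (c := 3) (by decide) (by decide) (by decide)
        (α := β - 4 * α) (β := 5 * α) (γ := γ) (by linarith) (by linarith) hγ (by linarith) ?_⟩
      rw [← h2, pos_rel_2]; module
  · obtain ⟨α, β, γ, hα, hβ, hγ, h1, h2⟩ := tri_exists (by decide) (by decide) (by decide) hx
    by_cases hc : γ / 4 ≤ α
    · by_cases hc2 : β ≤ α - γ / 4
      · refine ⟨8, tri_mem (a := 0) (b := 4) (c := 7) (by decide) (by decide) (by decide)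
          (α := α - γ / 4 - β) (β := 5 * γ / 4) (γ := 2 * β) (by linarith) (by linarith)
          (by linarith) (by linarith) ?_⟩
        rw [← h2, pos_rel_4, pos_rel_7]; module
      · refine ⟨4, tri_mem (a := 7) (b := 3) (c := 4) (by decide) (by decide) (by decide)
          (α := 2 * (α - γ / 4)) (β := β - (α - γ / 4)) (γ := 5 * γ / 4) (by linarith)
          (by linarith) (by linarith) (by linarith) ?_⟩
        rw [← h2, pos_rel_4, pos_rel_7]; module
    · refine ⟨5, tri_mem (a := 3) (b := 4) (c := 8) (by decide) (by decide) (by decide)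
        (α := β) (β := 5 * α) (γ := γ - 4 * α) hβ (by linarith) (by linarith) (by linarith) ?_⟩
      rw [← h2, pos_rel_4]; module
  · obtain ⟨α, β, γ, hα, hβ, hγ, h1, h2⟩ := tri_exists (by decide) (by decide) (by decide) hx
    by_cases hc : β / 4 ≤ α
    · refine ⟨7, tri_mem (a := 5) (b := 4) (c := 0) (by decide) (by decide) (by decide)
        (α := γ) (β := 5 * β / 4) (γ := α - β / 4) hγ (by linarith) (by linarith)
        (by linarith) ?_⟩
      rw [← h2, pos_rel_4]; module
    · refine ⟨6, tri_mem (a := 8) (b := 4) (c := 5) (by decide) (by decide) (by decide)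
        (α := β - 4 * α) (β := 5 * α) (γ := γ) (by linarith) (by linarith) hγ (by linarith) ?_⟩
      rw [← h2, pos_rel_4]; module

theorem zero_mem_fan (i : Fin 4) : (0 : Fin 9) ∈ fanF i := by
  revert i; decide +kernel

theorem starConvex : StarConvex ℝ (posR 0) K0.space := by
  rw [starConvex_iff_segment_subset]
  intro y hy
  obtain ⟨t, ht⟩ := Set.mem_iUnion.1 hy
  change Fin 10 at t
  have h1 : y ∈ hull (fanF (fanOf t)) := hull_subset_fan t ht
  have h2 : posR 0 ∈ hull (fanF (fanOf t)) := vertex_mem (zero_mem_fan _)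
  have h3 : segment ℝ (posR 0) y ⊆ hull (fanF (fanOf t)) :=
    (convex_convexHull ℝ _).segment_subset h2 h1
  exact h3.trans (fan_subset _)

/-! ### The splines of the example -/

/-- the normalised line of the common edge of two adjacent triangles -/
def lineF : Fin 10 → Fin 10 → ℤ × ℤ × ℤ := fun s t =>
  if (s = 0 ∧ t = 1) ∨ (s = 1 ∧ t = 0) ∨ (s = 2 ∧ t = 3) ∨ (s = 3 ∧ t = 2) ∨ (s = 4 ∧ t = 5) ∨
    (s = 5 ∧ t = 4) ∨ (s = 6 ∧ t = 7) ∨ (s = 7 ∧ t = 6) then (2, 1, -4)
  else if (s = 1 ∧ t = 2) ∨ (s = 2 ∧ t = 1) ∨ (s = 9 ∧ t = 0) ∨ (s = 0 ∧ t = 9) then (1, 0, 0)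
  else if (s = 3 ∧ t = 4) ∨ (s = 4 ∧ t = 3) ∨ (s = 8 ∧ t = 9) ∨ (s = 9 ∧ t = 8) then (0, 1, 0)
  else if (s = 5 ∧ t = 6) ∨ (s = 6 ∧ t = 5) ∨ (s = 7 ∧ t = 8) ∨ (s = 8 ∧ t = 7) then (1, 1, 0)
  else if (s = 3 ∧ t = 9) ∨ (s = 9 ∧ t = 3) then (4, 1, -4)
  else (4, 3, -4)

/-- the list of interior edges, as pairs of triangles -/
def edgeList : List (Fin 10 × Fin 10) :=
  [(0, 1), (1, 2), (2, 3), (3, 4), (4, 5), (5, 6), (6, 7), (7, 8), (8, 9), (9, 0), (3, 9), (4, 8)]

theorem edge_check1 : ∀ s t : Fin 10, (triF s ∩ triF t).card = 2 →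
    (s, t) ∈ edgeList ∨ (t, s) ∈ edgeList := by
  decide +kernel

/-- proportionality of the edge form and the normalised line, and nonvanishing -/
def edgeOK (s t : Fin 10) (a b : Fin 9) : Bool :=
  let l := lineF s t
  let e1 := (posZ a).2 - (posZ b).2
  let e2 := (posZ b).1 - (posZ a).1
  let e3 := (posZ a).1 * (posZ b).2 - (posZ a).2 * (posZ b).1
  decide (e1 * l.2.1 = e2 * l.1) && decide (e1 * l.2.2 = e3 * l.1) &&
    decide (e2 * l.2.2 = e3 * l.2.1) && (decide (e1 ≠ 0) || decide (e2 ≠ 0)) &&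
    (decide (l.1 ≠ 0) || decide (l.2.1 ≠ 0))

theorem edge_check2 : ∀ s t : Fin 10, (triF s ∩ triF t).card = 2 →
    ∀ a ∈ triF s ∩ triF t, ∀ b ∈ triF s ∩ triF t, a ≠ b → edgeOK s t a b = true := by
  decide +kernel

theorem line_symm : ∀ s t : Fin 10, lineF s t = lineF t s := by decide +kernel

/-- the linear form of an integer triple -/
noncomputable def linZ (l : ℤ × ℤ × ℤ) : S := lin l.1 l.2.1 l.2.2

theorem lin_proportional {a b c a' b' c' : ℝ} (h : a ≠ 0 ∨ b ≠ 0) (h' : a' ≠ 0 ∨ b' ≠ 0)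
    (h1 : a * b' = b * a') (h2 : a * c' = c * a') (h3 : b * c' = c * b') :
    ∃ k : ℝ, k ≠ 0 ∧ lin a b c = C k * lin a' b' c' := by
  by_cases ha' : a' = 0
  · have hb' : b' ≠ 0 := by
      rcases h' with h' | h'
      · exact absurd ha' h'
      · exact h'
    have ha : a = 0 := by
      rw [ha', mul_zero] at h1
      exact (mul_eq_zero.1 h1).resolve_right hb'
    have hb : b ≠ 0 := by
      rcases h with h | h
      · exact absurd ha h
      · exact h
    refine ⟨b / b', div_ne_zero hb hb', ?_⟩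
    have e3 : c = b / b' * c' := by field_simp; linarith
    have e2 : b = b / b' * b' := by field_simp
    rw [lin, lin, ha, ha']
    conv_lhs => rw [e2, e3]
    simp only [C_mul]
    simp
    ring
  · have ha : a ≠ 0 := by
      rcases h with h | h
      · exact h
      · intro ha
        rw [ha, zero_mul] at h1
        rcases mul_eq_zero.1 h1.symm with h4 | h4
        · exact h h4
        · exact ha' h4
    refine ⟨a / a', div_ne_zero ha ha', ?_⟩
    have e1 : a = a / a' * a' := by field_simp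
    have e2 : b = a / a' * b' := by field_simp; linarith
    have e3 : c = a / a' * c' := by field_simp; linarith
    rw [lin, lin]
    conv_lhs => rw [e1, e2, e3]
    simp only [C_mul]
    ring

theorem edge_line {s t : Fin 10} (hst : (triF s ∩ triF t).card = 2) {a b : Fin 9}
    (ha : a ∈ triF s ∩ triF t) (hb : b ∈ triF s ∩ triF t) (hab : a ≠ b) :
    ∃ k : ℝ, k ≠ 0 ∧ edgeForm (posR a) (posR b) = C k * linZ (lineF s t) := by
  have h0 := edge_check2 s t hst a ha b hb hab
  simp only [edgeOK, Bool.and_eq_true, Bool.or_eq_true, decide_eq_true_eq] at h0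
  obtain ⟨⟨⟨⟨h1, h2⟩, h3⟩, h4⟩, h5⟩ := h0
  have := lin_proportional (a := ((posZ a).2 - (posZ b).2 : ℝ)) (b := ((posZ b).1 - (posZ a).1 : ℝ))
    (c := ((posZ a).1 * (posZ b).2 - (posZ a).2 * (posZ b).1 : ℝ)) (a' := ((lineF s t).1 : ℝ))
    (b' := ((lineF s t).2.1 : ℝ)) (c' := ((lineF s t).2.2 : ℝ))
    (by exact_mod_cast h4) (by exact_mod_cast h5) (by exact_mod_cast h1) (by exact_mod_cast h2)
    (by exact_mod_cast h3)
  exact this

theorem C_mul_pow_dvd {k : ℝ} (hk : k ≠ 0) {l f : S} {n : ℕ} : (C k * l) ^ n ∣ f ↔ l ^ n ∣ f := by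
  rw [mul_pow]
  have hu : IsUnit ((C k : S) ^ n) := ((isUnit_iff_ne_zero.2 hk).map C).pow n
  exact hu.mul_left_dvd

theorem mem_splines_of {r : ℕ} {F : Fin 10 → S}
    (h : ∀ p ∈ edgeList, linZ (lineF p.1 p.2) ^ (r + 1) ∣ F p.1 - F p.2) :
    (F : K0.T → S) ∈ splines K0 r := by
  intro s t a b hab hst
  change Fin 10 at s t
  change Fin 9 at a b
  change triF s ∩ triF t = {a, b} at hst
  have hcard : (triF s ∩ triF t).card = 2 := by rw [hst]; exact Finset.card_pair hab
  obtain ⟨k, hk, he⟩ := edge_line hcard (a := a) (b := b) (by rw [hst]; simp) (by rw [hst]; simp)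
    hab
  change edgeForm (posR a) (posR b) ^ (r + 1) ∣ F s - F t
  rw [he, C_mul_pow_dvd hk]
  rcases edge_check1 s t hcard with h1 | h1
  · have h2 := h (s, t) h1
    exact h2
  · have h2 : linZ (lineF t s) ^ (r + 1) ∣ F t - F s := h (t, s) h1
    rw [line_symm, ← neg_sub, dvd_neg] at h2
    exact h2

theorem splines_edge {r : ℕ} {F : Fin 10 → S} (hF : (F : K0.T → S) ∈ splines K0 r) (s t : Fin 10)
    (hcard : (triF s ∩ triF t).card = 2) : linZ (lineF s t) ^ (r + 1) ∣ F s - F t := by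
  obtain ⟨a, b, hab, h⟩ := Finset.card_eq_two.1 hcard
  obtain ⟨k, hk, he⟩ := edge_line hcard (a := a) (b := b) (by rw [h]; simp) (by rw [h]; simp)
    hab
  have h1 : edgeForm (posR a) (posR b) ^ (r + 1) ∣ F s - F t := hF s t a b hab h
  rwa [he, C_mul_pow_dvd hk] at h1

theorem linZ_l0 : linZ (2, 1, -4) = ZZ := by
  rw [linZ, lin, ZZ_eq]; push_cast; rfl
theorem linZ_x : linZ (1, 0, 0) = X 0 := by
  rw [linZ, lin]; simp
theorem linZ_y : linZ (0, 1, 0) = X 1 := by
  rw [linZ, lin]; simp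
theorem linZ_xy : linZ (1, 1, 0) = X 0 + X 1 := by
  rw [linZ, lin]; simp
theorem linZ_m1 : linZ (4, 1, -4) = lin 4 1 (-4) := by
  rw [linZ]; push_cast; rfl
theorem linZ_m3 : linZ (4, 3, -4) = lin 4 3 (-4) := by
  rw [linZ]; push_cast; rfl

/-- The twelve conditions defining the splines of the example. -/
structure Cond (n : ℕ) (F : Fin 10 → S) : Prop where
  e01 : ZZ ^ n ∣ F 0 - F 1
  e12 : (X 0 : S) ^ n ∣ F 1 - F 2
  e23 : ZZ ^ n ∣ F 2 - F 3
  e34 : (X 1 : S) ^ n ∣ F 3 - F 4
  e45 : ZZ ^ n ∣ F 4 - F 5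
  e56 : (X 0 + X 1 : S) ^ n ∣ F 5 - F 6
  e67 : ZZ ^ n ∣ F 6 - F 7
  e78 : (X 0 + X 1 : S) ^ n ∣ F 7 - F 8
  e89 : (X 1 : S) ^ n ∣ F 8 - F 9
  e90 : (X 0 : S) ^ n ∣ F 9 - F 0
  e39 : lin 4 1 (-4) ^ n ∣ F 3 - F 9
  e48 : lin 4 3 (-4) ^ n ∣ F 4 - F 8

theorem cond_of_mem {r : ℕ} {F : Fin 10 → S} (hF : (F : K0.T → S) ∈ splines K0 r) :
    Cond (r + 1) F := by
  have h := fun s t hc => splines_edge hF s t hc
  constructor
  · have := h 0 1 (by decide); rwa [show lineF 0 1 = (2, 1, -4) by decide, linZ_l0] at this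
  · have := h 1 2 (by decide); rwa [show lineF 1 2 = (1, 0, 0) by decide, linZ_x] at this
  · have := h 2 3 (by decide); rwa [show lineF 2 3 = (2, 1, -4) by decide, linZ_l0] at this
  · have := h 3 4 (by decide); rwa [show lineF 3 4 = (0, 1, 0) by decide, linZ_y] at this
  · have := h 4 5 (by decide); rwa [show lineF 4 5 = (2, 1, -4) by decide, linZ_l0] at this
  · have := h 5 6 (by decide); rwa [show lineF 5 6 = (1, 1, 0) by decide, linZ_xy] at this
  · have := h 6 7 (by decide); rwa [show lineF 6 7 = (2, 1, -4) by decide, linZ_l0] at this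
  · have := h 7 8 (by decide); rwa [show lineF 7 8 = (1, 1, 0) by decide, linZ_xy] at this
  · have := h 8 9 (by decide); rwa [show lineF 8 9 = (0, 1, 0) by decide, linZ_y] at this
  · have := h 9 0 (by decide); rwa [show lineF 9 0 = (1, 0, 0) by decide, linZ_x] at this
  · have := h 3 9 (by decide); rwa [show lineF 3 9 = (4, 1, -4) by decide, linZ_m1] at this
  · have := h 4 8 (by decide); rwa [show lineF 4 8 = (4, 3, -4) by decide, linZ_m3] at this

theorem mem_of_cond {r : ℕ} {F : Fin 10 → S} (hF : Cond (r + 1) F) :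
    (F : K0.T → S) ∈ splines K0 r := by
  apply mem_splines_of
  simp only [edgeList, List.mem_cons, List.not_mem_nil, or_false]
  rintro p (rfl | rfl | rfl | rfl | rfl | rfl | rfl | rfl | rfl | rfl | rfl | rfl)
  · rw [show lineF (0, 1).1 (0, 1).2 = (2, 1, -4) by decide, linZ_l0]; exact hF.e01
  · rw [show lineF (1, 2).1 (1, 2).2 = (1, 0, 0) by decide, linZ_x]; exact hF.e12
  · rw [show lineF (2, 3).1 (2, 3).2 = (2, 1, -4) by decide, linZ_l0]; exact hF.e23
  · rw [show lineF (3, 4).1 (3, 4).2 = (0, 1, 0) by decide, linZ_y]; exact hF.e34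
  · rw [show lineF (4, 5).1 (4, 5).2 = (2, 1, -4) by decide, linZ_l0]; exact hF.e45
  · rw [show lineF (5, 6).1 (5, 6).2 = (1, 1, 0) by decide, linZ_xy]; exact hF.e56
  · rw [show lineF (6, 7).1 (6, 7).2 = (2, 1, -4) by decide, linZ_l0]; exact hF.e67
  · rw [show lineF (7, 8).1 (7, 8).2 = (1, 1, 0) by decide, linZ_xy]; exact hF.e78
  · rw [show lineF (8, 9).1 (8, 9).2 = (0, 1, 0) by decide, linZ_y]; exact hF.e89
  · rw [show lineF (9, 0).1 (9, 0).2 = (1, 0, 0) by decide, linZ_x]; exact hF.e90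
  · rw [show lineF (3, 9).1 (3, 9).2 = (4, 1, -4) by decide, linZ_m1]; exact hF.e39
  · rw [show lineF (4, 8).1 (4, 8).2 = (4, 3, -4) by decide, linZ_m3]; exact hF.e48

/-- The final contradiction: no syzygy `c = x^n u - Z^n v` with `u`, `v` splines, where `c` is
concentrated on the second triangle with value `- Z^n x^n h`. -/
theorem no_lift {n : ℕ} {h : S} (hh : ∀ a b c d : S, h ≠
      ZZ ^ n * a + X 0 ^ n * b + X 1 ^ n * c + (X 0 + X 1) ^ n * d)
    {u v : Fin 10 → S} (hu : Cond n u) (hv : Cond n v)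
    (h1 : X 0 ^ n * u 1 - ZZ ^ n * v 1 = - (ZZ ^ n * X 0 ^ n * h))
    (h2 : ∀ i, i ≠ 1 → X 0 ^ n * u i - ZZ ^ n * v i = 0) : False := by
  have lx : (X 0 : S) = lin 1 0 0 := by rw [lin]; simp
  have ly : (X 1 : S) = lin 0 1 0 := by rw [lin]; simp
  have lxy : (X 0 + X 1 : S) = lin 1 1 0 := by rw [lin]; simp
  have lz : ZZ = lin 2 1 (-4) := by rw [ZZ_eq]; rfl
  -- `Z^n` divides every `u i`
  have hdZ : ∀ f : S, ZZ ^ n ∣ X 0 ^ n * f → ZZ ^ n ∣ f := by
    intro f hf
    rw [lz] at hf ⊢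
    exact lin_pow_dvd (Or.inl (by norm_num)) ![1, 2, 1] (by simp; norm_num) (by simp) hf
  have hex : ∀ i, ∃ e, u i = ZZ ^ n * e := by
    intro i
    apply hdZ
    by_cases hi : i = 1
    · subst hi
      exact ⟨v 1 - X 0 ^ n * h, by linear_combination h1⟩
    · exact ⟨v i, by linear_combination h2 i hi⟩
  choose e he using hex
  have hZ0 : ZZ ^ n ≠ 0 := by
    rw [lz]
    exact pow_ne_zero _ (lin_prime (Or.inl (by norm_num))).ne_zero
  have hv1 : v 1 = X 0 ^ n * e 1 + X 0 ^ n * h := by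
    apply mul_left_cancel₀ hZ0
    rw [he 1] at h1
    linear_combination -h1
  have hvi : ∀ i, i ≠ 1 → v i = X 0 ^ n * e i := by
    intro i hi
    apply mul_left_cancel₀ hZ0
    have := h2 i hi
    rw [he i] at this
    linear_combination -this
  -- transfer of the conditions to `e`
  have tx : ∀ s t, (X 0 : S) ^ n ∣ u s - u t → (X 0 : S) ^ n ∣ e s - e t := by
    intro s t hd
    rw [he s, he t, ← mul_sub] at hd
    rw [lx] at hd ⊢
    exact lin_pow_dvd (Or.inl (by norm_num)) ![0, 1, 0] (by simp) (by simp [ZZ]) hd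
  have ty : ∀ s t, (X 1 : S) ^ n ∣ u s - u t → (X 1 : S) ^ n ∣ e s - e t := by
    intro s t hd
    rw [he s, he t, ← mul_sub] at hd
    rw [ly] at hd ⊢
    exact lin_pow_dvd (Or.inr (Or.inl (by norm_num))) ![1, 0, 0] (by simp) (by simp [ZZ]) hd
  have txy : ∀ s t, (X 0 + X 1 : S) ^ n ∣ u s - u t → (X 0 + X 1 : S) ^ n ∣ e s - e t := by
    intro s t hd
    rw [he s, he t, ← mul_sub] at hd
    rw [lxy] at hd ⊢
    exact lin_pow_dvd (Or.inl (by norm_num)) ![1, -1, 0] (by simp) (by simp [ZZ]; norm_num) hd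
  have tz : ∀ s t, s ≠ 1 → t ≠ 1 → ZZ ^ n ∣ v s - v t → ZZ ^ n ∣ e s - e t := by
    intro s t hs ht hd
    apply hdZ
    rw [hvi s hs, hvi t ht] at hd
    rwa [mul_sub]
  obtain ⟨a01, ha01⟩ : ZZ ^ n ∣ e 0 - e 1 - h := by
    apply hdZ
    have hd := hv.e01
    rw [hvi 0 (by decide), hv1] at hd
    have : X 0 ^ n * (e 0 - e 1 - h) = X 0 ^ n * e 0 - (X 0 ^ n * e 1 + X 0 ^ n * h) := by ring
    rwa [this]
  obtain ⟨a12, ha12⟩ := tx 1 2 hu.e12
  obtain ⟨a23, ha23⟩ := tz 2 3 (by decide) (by decide) hv.e23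
  obtain ⟨a34, ha34⟩ := ty 3 4 hu.e34
  obtain ⟨a45, ha45⟩ := tz 4 5 (by decide) (by decide) hv.e45
  obtain ⟨a56, ha56⟩ := txy 5 6 hu.e56
  obtain ⟨a67, ha67⟩ := tz 6 7 (by decide) (by decide) hv.e67
  obtain ⟨a78, ha78⟩ := txy 7 8 hu.e78
  obtain ⟨a89, ha89⟩ := ty 8 9 hu.e89
  obtain ⟨a90, ha90⟩ := tx 9 0 hu.e90
  apply hh (-(a01 + a23 + a45 + a67)) (-(a12 + a90)) (-(a34 + a89)) (-(a56 + a78))
  linear_combination (-1 : S) * ha01 - ha12 - ha23 - ha34 - ha45 - ha56 - ha67 - ha78 - ha89 - ha90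

/-- **Main theorem.** -/
theorem main {r : ℕ} (hr : 2 ≤ r) (F : GradedFreeResolution (splines K0 r)) :
    ∃ i, ∃ j : F.idx i, 5 * r / 2 + 2 + i ≤ F.deg i j := by
  classical
  by_contra hcon
  push Not at hcon
  obtain ⟨g, hg, hne⟩ := exists_h (r := r) (e := 3 * r / 2) (by omega) (by omega)
  set n := r + 1 with hn
  set e := 3 * r / 2 with he
  set h : S := lin 4 1 (-4) ^ n * g with hh
  have hhom : h.IsHomogeneous (r + e) := by
    have h1 : (lin 4 1 (-4) ^ n).IsHomogeneous (1 * n) := (isHomogeneous_lin 4 1 (-4)).pow n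
    have h2 : h.IsHomogeneous (1 * n + (e - 1)) := h1.mul hg
    have h3 : 1 * n + (e - 1) = r + e := by omega
    rwa [h3] at h2
  have hZ : (ZZ ^ n).IsHomogeneous n := by
    have := ZZ_homog.pow n; rwa [one_mul] at this
  have hX : ((X 0 : S) ^ n).IsHomogeneous n := isHomogeneous_X_pow _ _
  have hY : ((X 1 : S) ^ n).IsHomogeneous n := isHomogeneous_X_pow _ _
  -- the three splines
  let cα : Fin 10 → S := ![X 0 ^ n * X 1 ^ n * h, X 0 ^ n * X 1 ^ n * h, 0, 0, 0, 0, 0, 0, 0,
    X 0 ^ n * X 1 ^ n * h]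
  let cβ : Fin 10 → S := ![-(ZZ ^ n * X 1 ^ n * h), 0, 0, 0, 0, 0, 0, 0, 0,
    -(ZZ ^ n * X 1 ^ n * h)]
  let cγ : Fin 10 → S := ![0, -(ZZ ^ n * X 0 ^ n * h), 0, 0, 0, 0, 0, 0, 0, 0]
  have hm1 : lin 4 1 (-4) ^ n ∣ h := Dvd.intro _ rfl
  have hcα : (cα : K0.T → S) ∈ splines K0 r := by
    apply mem_of_cond
    constructor
    · simp [cα]
    · simp [cα]; exact Dvd.intro _ (by rw [mul_assoc])
    · simp [cα]
    · simp [cα]
    · simp [cα]
    · simp [cα]
    · simp [cα]
    · simp [cα]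
    · simp [cα]; exact ⟨X 0 ^ n * h, by ring⟩
    · simp [cα]
    · simp [cα]; exact Dvd.dvd.mul_left hm1 _
    · simp [cα]
  have hcβ : (cβ : K0.T → S) ∈ splines K0 r := by
    apply mem_of_cond
    constructor
    · simp [cβ]; exact Dvd.intro _ (by rw [mul_assoc])
    · simp [cβ]
    · simp [cβ]
    · simp [cβ]
    · simp [cβ]
    · simp [cβ]
    · simp [cβ]
    · simp [cβ]
    · simp [cβ]; exact ⟨ZZ ^ n * h, by ring⟩
    · simp [cβ]
    · simp [cβ]; exact Dvd.dvd.mul_left hm1 _
    · simp [cβ]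
  have hcγ : (cγ : K0.T → S) ∈ splines K0 r := by
    apply mem_of_cond
    constructor
    · simp [cγ]; exact Dvd.intro _ (by rw [mul_assoc])
    · simp [cγ]; exact ⟨ZZ ^ n * h, by ring⟩
    · simp [cγ]
    · simp [cγ]
    · simp [cγ]
    · simp [cγ]
    · simp [cγ]
    · simp [cγ]
    · simp [cγ]
    · simp [cγ]
    · simp [cγ]
    · simp [cγ]
  -- homogeneity
  have hthree : ∀ {a b c : S} {p q t : ℕ}, a.IsHomogeneous p → b.IsHomogeneous q →
      c.IsHomogeneous t → (a * b * c).IsHomogeneous (p + q + t) :=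
    fun ha hb hc => (ha.mul hb).mul hc
  have hv0 : ∀ {d : ℕ}, ((0 : S)).IsHomogeneous d := fun {d} => isHomogeneous_zero _ _ _
  have hdeg : n + n + (r + e) = 2 * n + (r + e) := by ring
  have hHα : HVec (fun _ : K0.T => 0) (2 * n + (r + e)) cα := by
    apply hVec_of
    · intro j _
      change Fin 10 at j
      rw [Nat.sub_zero, ← hdeg]
      fin_cases j
      · exact hthree hX hY hhom
      · exact hthree hX hY hhom
      · exact hv0
      · exact hv0
      · exact hv0
      · exact hv0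
      · exact hv0
      · exact hv0
      · exact hv0
      · exact hthree hX hY hhom
    · intro j hj; omega
  have hHβ : HVec (fun _ : K0.T => 0) (2 * n + (r + e)) cβ := by
    apply hVec_of
    · intro j _
      change Fin 10 at j
      rw [Nat.sub_zero, ← hdeg]
      fin_cases j
      · exact (hthree hZ hY hhom).neg
      · exact hv0
      · exact hv0
      · exact hv0
      · exact hv0
      · exact hv0
      · exact hv0
      · exact hv0
      · exact hv0
      · exact (hthree hZ hY hhom).neg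
    · intro j hj; omega
  have hHγ : HVec (fun _ : K0.T => 0) (2 * n + (r + e)) cγ := by
    apply hVec_of
    · intro j _
      change Fin 10 at j
      rw [Nat.sub_zero, ← hdeg]
      fin_cases j
      · exact hv0
      · exact (hthree hZ hX hhom).neg
      · exact hv0
      · exact hv0
      · exact hv0
      · exact hv0
      · exact hv0
      · exact hv0
      · exact hv0
      · exact hv0
    · intro j hj; omega
  have hgen : ∀ j, HVec (fun _ : K0.T => 0) (F.deg 0 j) (F.gen j) := by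
    intro j
    apply hVec_of
    · intro t _; exact F.gen_homogeneous j t
    · intro t ht; omega
  -- homogeneous lifts to `F_0`
  have hlift : ∀ c : K0.T → S, c ∈ splines K0 r → HVec (fun _ : K0.T => 0) (2 * n + (r + e)) c →
      ∃ a : F.idx 0 → S, HVec (F.deg 0) (2 * n + (r + e)) a ∧ c = ∑ j, a j • F.gen j := by
    intro c hc hHc
    rw [← F.span_gen] at hc
    obtain ⟨ω, hω⟩ := (Submodule.mem_span_range_iff_exists_fun S).1 hc
    exact exists_homog _ _ _ hgen _ _ hHc ω hω.symm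
  obtain ⟨a, haH, ha⟩ := hlift _ hcα hHα
  obtain ⟨b, hbH, hb⟩ := hlift _ hcβ hHβ
  obtain ⟨c, hcH, hc⟩ := hlift _ hcγ hHγ
  have hrel : ZZ ^ n • (cα : K0.T → S) + (X 0 : S) ^ n • cβ + (X 1 : S) ^ n • cγ = 0 := by
    funext i
    change Fin 10 at i
    fin_cases i
    · simp [cα, cβ, cγ]; ring
    · simp [cα, cβ, cγ]; ring
    · simp [cα, cβ, cγ]
    · simp [cα, cβ, cγ]
    · simp [cα, cβ, cγ]
    · simp [cα, cβ, cγ]
    · simp [cα, cβ, cγ]
    · simp [cα, cβ, cγ]
    · simp [cα, cβ, cγ]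
    · simp [cα, cβ, cγ]; ring
  set w₀ : F.idx 0 → S := fun k => ZZ ^ n * a k + X 0 ^ n * b k + X 1 ^ n * c k with hw₀
  have hw₀0 : ∑ k, w₀ k • F.gen k = 0 := by
    have h1 : ∑ k, w₀ k • F.gen k = ZZ ^ n • (∑ j, a j • F.gen j) +
        (X 0 : S) ^ n • (∑ j, b j • F.gen j) + (X 1 : S) ^ n • (∑ j, c j • F.gen j) := by
      rw [Finset.smul_sum, Finset.smul_sum, Finset.smul_sum,
        ← Finset.sum_add_distrib, ← Finset.sum_add_distrib]
      refine Finset.sum_congr rfl (fun k _ => ?_)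
      rw [hw₀]
      simp only [add_smul, mul_smul]
    rw [h1, ← ha, ← hb, ← hc]
    exact hrel
  have hw₀H : HVec (F.deg 0) (3 * n + (r + e)) w₀ := by
    apply hVec_of
    · intro k hk
      by_cases hk2 : F.deg 0 k ≤ 2 * n + (r + e)
      · have e1 : 3 * n + (r + e) - F.deg 0 k = n + (2 * n + (r + e) - F.deg 0 k) := by omega
        rw [e1]
        exact ((hZ.mul (haH.isHomogeneous k)).add (hX.mul (hbH.isHomogeneous k))).add
          (hY.mul (hcH.isHomogeneous k))
      · rw [hw₀]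
        simp only
        rw [haH.eq_zero (by omega), hbH.eq_zero (by omega), hcH.eq_zero (by omega)]
        simp only [mul_zero, add_zero]
        exact hv0
    · intro k hk
      rw [hw₀]
      simp only
      rw [haH.eq_zero (by omega), hbH.eq_zero (by omega), hcH.eq_zero (by omega)]
      simp
  obtain ⟨ω, hω⟩ := (Submodule.mem_span_range_iff_exists_fun S).1 ((F.exact_zero w₀).1 hw₀0)
  obtain ⟨ω', hω'H, hω'⟩ := exists_homog (F.deg 1) (F.deg 0) (F.dif 0)
    (fun j k m hm => F.dif_homogeneous 0 j k m hm) _ _ hw₀H ω hω.symm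
  -- all coefficients lie in the ideal `(Z^n, x^n, y^n)`
  have hsplit : ∀ j, ∃ A B Γ : S, ω' j = ZZ ^ n * A + X 0 ^ n * B + X 1 ^ n * Γ := by
    intro j
    by_cases hj : F.deg 1 j ≤ 3 * n + (r + e)
    · have h1 := hcon 1 j
      exact mem_span_pow' (by omega) (by omega) (hω'H.isHomogeneous j)
    · exact ⟨0, 0, 0, by rw [hω'H.eq_zero (by omega)]; simp⟩
  choose A B Γ hABΓ using hsplit
  have hkos : ∀ k, ZZ ^ n * (a k - ∑ j, A j * F.dif 0 j k) + X 0 ^ n * (b k - ∑ j, B j * F.dif 0 j k)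
      + X 1 ^ n * (c k - ∑ j, Γ j * F.dif 0 j k) = 0 := by
    intro k
    have h1 : w₀ k = ∑ j, ω' j * F.dif 0 j k := by
      have := congrFun hω' k
      rw [Finset.sum_apply] at this
      exact this
    have h2 : ∑ j, ω' j * F.dif 0 j k = ZZ ^ n * ∑ j, A j * F.dif 0 j k +
        X 0 ^ n * ∑ j, B j * F.dif 0 j k + X 1 ^ n * ∑ j, Γ j * F.dif 0 j k := by
      rw [Finset.mul_sum, Finset.mul_sum, Finset.mul_sum, ← Finset.sum_add_distrib,
        ← Finset.sum_add_distrib]
      refine Finset.sum_congr rfl (fun j _ => ?_)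
      rw [hABΓ j]; ring
    rw [h2, hw₀] at h1
    linear_combination h1
  have hkos' := fun k => koszul (hkos k)
  choose p q s _ _ hc' using hkos'
  -- the syzygy of splines
  let u : K0.T → S := ∑ k, s k • F.gen k
  let v : K0.T → S := ∑ k, p k • F.gen k
  have humem : u ∈ splines K0 r := by
    rw [← F.span_gen]
    exact Submodule.sum_mem _ (fun k _ => Submodule.smul_mem _ _ (Submodule.subset_span ⟨k, rfl⟩))
  have hvmem : v ∈ splines K0 r := by
    rw [← F.span_gen]
    exact Submodule.sum_mem _ (fun k _ => Submodule.smul_mem _ _ (Submodule.subset_span ⟨k, rfl⟩))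
  have hker : ∀ j, ∑ k, F.dif 0 j k • F.gen k = 0 := by
    intro j
    exact (F.exact_zero _).2 (Submodule.subset_span ⟨j, rfl⟩)
  have hfin : (cγ : K0.T → S) = (X 0 : S) ^ n • u - ZZ ^ n • v := by
    have h1 : ∑ k, (c k - ∑ j, Γ j * F.dif 0 j k) • F.gen k = cγ := by
      rw [hc]
      have h2 : ∑ k, (∑ j, Γ j * F.dif 0 j k) • F.gen k = 0 := by
        simp_rw [Finset.sum_smul, mul_smul]
        rw [Finset.sum_comm]
        apply Finset.sum_eq_zero
        intro j _
        rw [← Finset.smul_sum, hker, smul_zero]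
      simp_rw [sub_smul]
      rw [Finset.sum_sub_distrib, h2, sub_zero]
    rw [← h1]
    simp only [u, v]
    rw [Finset.smul_sum, Finset.smul_sum, ← Finset.sum_sub_distrib]
    refine Finset.sum_congr rfl (fun k _ => ?_)
    rw [hc' k, sub_smul, mul_smul, mul_smul]
  refine no_lift (n := n) (h := h) (fun a b c d => hne a b c d) (cond_of_mem humem)
    (cond_of_mem hvmem) ?_ ?_
  · have := congrFun hfin (1 : Fin 10)
    simp only [cγ] at this
    exact this.symm
  · intro i hi
    have := congrFun hfin i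
    have h0 : cγ i = 0 := by
      fin_cases i
      · rfl
      · exact absurd rfl hi
      all_goals rfl
    rw [h0] at this
    exact this.symm

/-! ### Graded free resolutions exist -/

/-- the homogeneous component of degree `e` of a vector, for the degree shifts `dk` -/
noncomputable def proj {K : Type} (dk : K → ℕ) (e : ℕ) (v : K → S) : K → S :=
  fun k => if dk k ≤ e then homogeneousComponent (e - dk k) (v k) else 0

theorem proj_hVec {K : Type} (dk : K → ℕ) (e : ℕ) (v : K → S) : HVec dk e (proj dk e v) := by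
  apply hVec_of
  · intro k hk
    simp only [proj, hk, if_true]
    exact homogeneousComponent_isHomogeneous _ _
  · intro k hk
    rw [proj, if_neg (by omega)]

theorem proj_sum {K : Type} (dk : K → ℕ) {J : Type} [Fintype J] (dg : J → ℕ) (g : J → K → S)
    (hg : ∀ j, HVec dk (dg j) (g j)) (e : ℕ) (w : J → S) :
    proj dk e (∑ j, w j • g j) = ∑ j, proj dg e w j • g j := by
  funext k
  have h1 : (∑ j, w j • g j) k = ∑ j, w j * g j k := by rw [Finset.sum_apply]; rfl
  have h2 : (∑ j, proj dg e w j • g j) k = ∑ j, proj dg e w j * g j k := by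
    rw [Finset.sum_apply]; rfl
  rw [h2, proj, h1]
  by_cases hk : dk k ≤ e
  · rw [if_pos hk, map_sum]
    refine Finset.sum_congr rfl (fun j _ => ?_)
    by_cases hkj : dk k ≤ dg j
    · rw [hc_mul ((hg j).isHomogeneous k), proj]
      by_cases hj : dg j ≤ e
      · rw [if_pos (by omega), if_pos hj]
        congr 3
        omega
      · rw [if_neg (by omega), if_neg hj, zero_mul]
    · rw [(hg j).eq_zero (by omega)]
      simp
  · rw [if_neg hk]
    symm
    apply Finset.sum_eq_zero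
    intro j _
    rw [proj]
    by_cases hj : dg j ≤ e
    · rw [(hg j).eq_zero (by omega), mul_zero]
    · rw [if_neg hj, zero_mul]

theorem exists_sum_proj {K : Type} [Fintype K] (dk : K → ℕ) (v : K → S) :
    ∃ B₀, ∀ B, B₀ ≤ B → v = ∑ e ∈ Finset.range B, proj dk e v := by
  refine ⟨(Finset.univ.sup fun k => (v k).totalDegree + dk k) + 1, fun B hB => ?_⟩
  funext k
  rw [Finset.sum_apply]
  have hk : (v k).totalDegree + dk k < B := by
    have := Finset.le_sup (f := fun k => (v k).totalDegree + dk k) (Finset.mem_univ k)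
    omega
  have hsub : (Finset.range ((v k).totalDegree + 1)).image (fun i => i + dk k) ⊆ Finset.range B := by
    intro e he
    obtain ⟨i, hi, rfl⟩ := Finset.mem_image.1 he
    rw [Finset.mem_range] at hi ⊢
    omega
  rw [← Finset.sum_subset hsub]
  · rw [Finset.sum_image (fun a _ b _ h => by simpa using h)]
    conv_lhs => rw [← sum_homogeneousComponent (v k)]
    refine Finset.sum_congr rfl (fun i _ => ?_)
    rw [proj, if_pos (by omega)]
    congr 1
    congr 1
    omega
  · intro e _ he2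
    rw [proj]
    split_ifs with h
    · apply homogeneousComponent_eq_zero
      by_contra hcon
      apply he2
      rw [Finset.mem_image]
      exact ⟨e - dk k, by rw [Finset.mem_range]; omega, by omega⟩
    · rfl

/-- A graded submodule of a graded free module. -/
structure Stage where
  K : Type
  fin : Fintype K
  dk : K → ℕ
  N : Submodule S (K → S)
  graded : ∀ v ∈ N, ∀ e, proj dk e v ∈ N

attribute [instance] Stage.fin

theorem Stage.exists_gens (X : Stage) : ∃ (J : Type) (_ : Fintype J) (dg : J → ℕ) (g : J → X.K → S),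
    (∀ j, HVec X.dk (dg j) (g j)) ∧ Submodule.span S (Set.range g) = X.N := by
  classical
  obtain ⟨s, hs⟩ : X.N.FG := IsNoetherian.noetherian _
  have hB := fun v : X.K → S => exists_sum_proj X.dk v
  choose B hB using hB
  let B₀ := s.sup B
  refine ⟨s × Fin B₀, inferInstance, fun j => j.2, fun j => proj X.dk j.2 j.1,
    fun j => proj_hVec _ _ _, ?_⟩
  apply le_antisymm
  · rw [Submodule.span_le]
    rintro _ ⟨⟨⟨v, hv⟩, e⟩, rfl⟩
    apply X.graded
    rw [← hs]
    exact Submodule.subset_span hv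
  · rw [← hs, Submodule.span_le]
    intro v hv
    have h1 : B v ≤ B₀ := Finset.le_sup (f := B) hv
    rw [hB v B₀ h1]
    apply Submodule.sum_mem
    intro e he
    apply Submodule.subset_span
    exact ⟨(⟨v, hv⟩, ⟨e, Finset.mem_range.1 he⟩), rfl⟩

/-- chosen homogeneous generators -/
noncomputable def Stage.J (X : Stage) : Type := X.exists_gens.choose
noncomputable instance (X : Stage) : Fintype X.J := X.exists_gens.choose_spec.choose
noncomputable def Stage.dg (X : Stage) : X.J → ℕ := X.exists_gens.choose_spec.choose_spec.choose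
noncomputable def Stage.g (X : Stage) : X.J → X.K → S :=
  X.exists_gens.choose_spec.choose_spec.choose_spec.choose
theorem Stage.g_hom (X : Stage) (j : X.J) : HVec X.dk (X.dg j) (X.g j) :=
  X.exists_gens.choose_spec.choose_spec.choose_spec.choose_spec.1 j
theorem Stage.g_span (X : Stage) : Submodule.span S (Set.range X.g) = X.N :=
  X.exists_gens.choose_spec.choose_spec.choose_spec.choose_spec.2

/-- the next syzygy module -/
noncomputable def Stage.next (X : Stage) : Stage where
  K := X.J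
  fin := inferInstance
  dk := X.dg
  N :=
    { carrier := {w | ∑ j, w j • X.g j = 0}
      add_mem' := by
        intro a b ha hb
        change ∑ j, (a + b) j • X.g j = 0
        simp only [Pi.add_apply, add_smul, Finset.sum_add_distrib]
        rw [ha, hb, add_zero]
      zero_mem' := by
        change ∑ j, (0 : X.J → S) j • X.g j = 0
        simp
      smul_mem' := by
        intro c a ha
        change ∑ j, (c • a) j • X.g j = 0
        simp only [Pi.smul_apply, smul_assoc, ← Finset.smul_sum]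
        rw [ha, smul_zero] }
  graded := by
    intro w hw e
    change ∑ j, proj X.dg e w j • X.g j = 0
    rw [← proj_sum X.dk X.dg X.g X.g_hom e w]
    have hw' : ∑ j, w j • X.g j = 0 := hw
    rw [hw']
    funext k
    simp [proj]

theorem Stage.mem_next (X : Stage) (w : X.J → S) : w ∈ X.next.N ↔ ∑ j, w j • X.g j = 0 := Iff.rfl

noncomputable def Stage.seq (X : Stage) : ℕ → Stage
  | 0 => X
  | i + 1 => (X.seq i).next

/-- Every graded submodule of `S^T` has a graded free resolution. -/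
theorem nonempty_resolution {T : Type} [Fintype T] (M : Submodule S (T → S))
    (hM : ∀ v ∈ M, ∀ e, proj (fun _ => 0) e v ∈ M) : Nonempty (GradedFreeResolution M) := by
  let X : Stage := ⟨T, inferInstance, fun _ => 0, M, hM⟩
  refine ⟨{
    idx := fun i => (X.seq i).J
    fintypeIdx := fun i => inferInstance
    deg := fun i => (X.seq i).dg
    gen := X.g
    gen_homogeneous := ?_
    span_gen := X.g_span
    dif := fun i => (X.seq (i + 1)).g
    dif_homogeneous := ?_
    exact_zero := ?_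
    exact_succ := ?_ }⟩
  · intro j t
    have := (X.g_hom j).isHomogeneous t
    exact this
  · intro i j k m hm
    exact (X.seq (i + 1)).g_hom j k m hm
  · intro w
    have h : w ∈ Submodule.span S (Set.range (X.seq 1).g) ↔ w ∈ (X.seq 1).N := by
      rw [(X.seq 1).g_span]
    exact (h.trans (X.mem_next w)).symm
  · intro i w
    have h : w ∈ Submodule.span S (Set.range (X.seq (i + 2)).g) ↔ w ∈ (X.seq (i + 2)).N := by
      rw [(X.seq (i + 2)).g_span]
    exact (h.trans ((X.seq (i + 1)).mem_next w)).symm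

theorem splines_graded (K : PlanarComplex) (r : ℕ) :
    ∀ v ∈ splines K r, ∀ e, proj (fun _ => 0) e v ∈ splines K r := by
  intro v hv e s t a b hab hst
  obtain ⟨q, hq⟩ := hv s t a b hab hst
  have hl : (edgeForm (K.pos a) (K.pos b)).IsHomogeneous 1 := isHomogeneous_lin _ _ _
  have hln := hl.pow (r + 1)
  have h1 : proj (fun _ => 0) e v s - proj (fun _ => 0) e v t =
      homogeneousComponent e (v s - v t) := by
    simp [proj]
  rw [h1, hq, mul_comm, hc_mul hln]
  split_ifs
  · exact Dvd.intro_left _ rfl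
  · exact dvd_zero _

/-- **Theorem.** There is a finite pure two-dimensional hereditary simplicial complex `Δ` in the
plane with ten triangles, whose support is star-convex (so it is a triangulated disk, without
holes), such that for every `r ≥ 2` the spline module `C^r` of the cone over `Δ` has a graded free resolution, and in
every graded free resolution of it (in particular in the minimal one) some `F_i` has a basis
element of degree at least `⌊5r/2⌋ + 2 + i`. Hence the regularity of `C^r` is at least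
`⌊5r/2⌋ + 2`, which is larger than `2(r+1)`. -/
theorem result : ∃ K : PlanarComplex, Fintype.card K.T = 10 ∧ K.Hereditary ∧
    (∃ v : K.V, StarConvex ℝ (K.pos v) K.space) ∧ ∀ r : ℕ, 2 ≤ r → 2 * (r + 1) < 5 * r / 2 + 2 ∧
      Nonempty (GradedFreeResolution (splines K r)) ∧
      ∀ F : GradedFreeResolution (splines K r),
        ∃ i : ℕ, ∃ j : F.idx i, 5 * r / 2 + 2 + i ≤ F.deg i j := by
  refine ⟨K0, Fintype.card_fin 10, hereditary, ⟨(0 : Fin 9), starConvex⟩,
    fun r hr => ⟨by omega, ?_, main hr⟩⟩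
  exact nonempty_resolution _ (splines_graded K0 r)

end Pool.Agent.Results.MP_75549a_ag.DiskRegularity
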